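import Mathlib
import Pool.Agent.Helper55K1.BG.Limit

set_option autoImplicit false

/-!
# Homomorphisms between Borsuk graphs of spheres: the right-angle bound and where it is sharp

For `k > n ≥ 1` and `0 < r < π` let `α*(k, n, r)` be the supremum of the `α` for which there is a
homomorphism `B(S^k; r) → B(S^n; α)`.  Then `α*(k, n, r) ≤ π / 2` always (the known bound was
`2π / 3`), with equality for `k ≤ 2n` and all `r` above an explicit value below `π`.

Idea.  Upper bound: a partition of unity and the Borsuk-Ulam theorem give two finitely supported
probability measures with the same mean, such that each image point of the first makes an angle at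
least `α` with each image point of the second.  Equality: a colouring of `S^k` by the `k + 2`
facets of a simplex, with the colours sent to distinct vertices of the cross-polytope in `S^n`.
-/

namespace Pool.Agent.Results.MP_3a943a_co.RightAngleBound

open Filter Topology Pool.Agent.Helper55K1.BG

theorem result (n k : ℕ) (_hn : 1 ≤ n) (hk : n < k) (r : ℝ) (h0 : 0 < r) (h1 : r < Real.pi) :
    alphaStar k n r ≤ Real.pi / 2 ∧
    (k ≤ 2 * n → Real.arccos (-(((k : ℝ) + 1) / (k + 3))) < r →
      alphaStar k n r = Real.pi / 2) :=
  ⟨alphaStar_le hk h0 h1, fun hk2 hr =>
    le_antisymm (alphaStar_le hk h0 h1) (le_alphaStar hk2 hr h1)⟩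

end Pool.Agent.Results.MP_3a943a_co.RightAngleBound
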