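import Mathlib
import Pool.Agent.Helper55K1.BG.Limit

set_option autoImplicit false

/-!
# Homomorphisms between Borsuk graphs of spheres: the right-angle threshold

For `k > n ≥ 1` and `0 < r < π` let `α*(k, n, r)` be the supremum of the `α` for which there is a
homomorphism `B(S^k; r) → B(S^n; α)`.

* `α*(k, n, r) → π / 2` as `r → π` for `n < k < (n² + 5n + 2) / 2`;
* `α*(k, n, r) ≤ arccos (1 / (n + 1)) < π / 2` for all `r < π` once `k ≥ (n² + 5n + 2) / 2`.

So the limit of `α*(k, n, r)` as `r → π` is `π / 2` exactly for `n < k < (n² + 5n + 2) / 2`.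

Idea.  Upper bounds: a partition of unity and the Borsuk-Ulam theorem give two finitely supported
probability measures, with the same moments of order at most one (or two), such that each image
point of the first makes an angle at least `α` with each image point of the second.  Lower bound:
send a point of `S^k`, regarded as a quadratic function on `S^n` modulo constants, to a maximum
point of this function: a maximum point and a minimum point of a quadratic function on the sphere
make an angle at least `π / 2`.
-/

namespace Pool.Agent.Results.MP_3a943a_co.RightAngleThreshold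

open Filter Topology Pool.Agent.Helper55K1.BG

theorem choose_two (n : ℕ) : 2 * ((n + 1) + (n + 2).choose 2) = n ^ 2 + 5 * n + 4 := by
  have h1 : (n + 2).choose 2 = (n + 2) * (n + 1) / 2 := by
    rw [Nat.choose_two_right]
    rfl
  have h2 : 2 ∣ (n + 2) * (n + 1) := by
    have := Nat.even_mul_succ_self (n + 1)
    rw [mul_comm]
    exact this.two_dvd
  rw [h1, mul_add, Nat.mul_div_cancel' h2]
  ring

theorem result (n k : ℕ) (_hn : 1 ≤ n) (hk : n < k) :
    (2 * k < n ^ 2 + 5 * n + 2 →
      Tendsto (fun r => alphaStar k n r) (𝓝[<] Real.pi) (𝓝 (Real.pi / 2))) ∧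
    (n ^ 2 + 5 * n + 2 ≤ 2 * k → ∀ r : ℝ, 0 < r → r < Real.pi →
      alphaStar k n r ≤ Real.arccos (1 / (n + 1))) := by
  have hch := choose_two n
  have hev : Even (n ^ 2 + 5 * n) := by
    have h1 : n ^ 2 + 5 * n = n * (n + 1) + 2 * (2 * n) := by ring
    rw [h1]
    exact (Nat.even_mul_succ_self n).add (even_two_mul _)
  obtain ⟨m, hm⟩ := hev
  exact ⟨fun hk2 => tendsto_alphaStar hk (by omega),
    fun hk2 r h0 h1 => alphaStar_le_second (by omega) h0 h1⟩

end Pool.Agent.Results.MP_3a943a_co.RightAngleThreshold
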